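import Pool.Agent.Q145.HC.Stm

set_option autoImplicit false

/-!
# Project HC (helper145), job DSP: the mean square of a smoothed convolution through Plancherel
-/

open Complex Filter Topology Set MeasureTheory Metric
open scoped Real FourierTransform Convolution

namespace Pool.Agent.Q223.HC

open Pool.Agent.W66 Pool.Agent.W66L
open Pool.Agent.Q145.HC (PG FG S_DSP)

lemma FG_continuous (a : ℕ → ℂ) (u h : ℝ) (N : ℕ) (L : Finset ℕ) (c : ℕ → ℂ) :
    Continuous (FG a u h N L c) := by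
  unfold FG
  apply continuous_finsetSum
  intro n _
  exact continuous_const.mul ((ggC_continuous h L c).comp (by fun_prop))

lemma FG_compact (a : ℕ → ℂ) {h : ℝ} (hh : 0 < h) (u : ℝ) (N : ℕ) (L : Finset ℕ)
    (c : ℕ → ℂ) : HasCompactSupport (FG a u h N L c) := sum_compact (ggC_compact hh L c) _ _ _

lemma FG_sq_integrable (a : ℕ → ℂ) {h : ℝ} (hh : 0 < h) (u : ℝ) (N : ℕ)
    (L : Finset ℕ) (c : ℕ → ℂ) : Integrable fun x => ‖FG a u h N L c x‖ ^ 2 := by
  apply ((FG_continuous a u h N L c).norm.pow 2).integrable_of_hasCompactSupport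
  have h1 := (FG_compact a hh u N L c).norm
  have h2 : ((fun x => ‖FG a u h N L c x‖) ^ 2) =
      fun x => ‖FG a u h N L c x‖ * ‖FG a u h N L c x‖ := by
    ext x
    simp only [Pi.pow_apply]
    ring
  rw [h2]
  exact h1.mul_left

lemma PG_fin (a : ℕ → ℂ) (u ξ : ℝ) (N : ℕ) (hN : Real.exp (u + 1) ≤ N) :
    PG a u (2 * π * ξ) = ∑ n ∈ Finset.Ioc 0 N,
      (a n * ((1 / n * hat (u - Real.log n) : ℝ) : ℂ)) *
        cexp (-(((2 * π * ξ * Real.log n : ℝ) : ℂ) * I)) := by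
  unfold PG
  rw [tsum_eq_sum (s := Finset.Ioc 0 N)]
  · apply Finset.sum_congr rfl
    intro n hn
    rw [Finset.mem_Ioc] at hn
    rw [LSeries.term_of_ne_zero hn.1.ne']
    have hnc : (n : ℂ) ≠ 0 := by exact_mod_cast hn.1.ne'
    have h1 : (n : ℂ) ^ (⟨1, 2 * π * ξ⟩ : ℂ) = (n : ℂ) * cexp (((2 * π * ξ * Real.log n : ℝ) : ℂ) * I) := by
      have e : (⟨1, 2 * π * ξ⟩ : ℂ) = 1 + ((2 * π * ξ : ℝ) : ℂ) * I := by
        apply Complex.ext <;> simp
      rw [e, Complex.cpow_add _ _ hnc, Complex.cpow_one, Complex.cpow_def_of_ne_zero hnc,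
        ← Complex.natCast_log]
      congr 2
      push_cast
      ring
    rw [h1, Complex.exp_neg]
    have h2 := Complex.exp_ne_zero (((2 * π * ξ * Real.log n : ℝ) : ℂ) * I)
    push_cast
    field_simp
  · intro n hn
    rcases Nat.eq_zero_or_pos n with rfl | hn0
    · simp
    · rw [Finset.mem_Ioc] at hn
      have h1 : N < n := by
        by_contra hc
        exact hn ⟨hn0, by omega⟩
      have h2 : u + 1 ≤ Real.log n := by
        rw [Real.le_log_iff_exp_le (by exact_mod_cast hn0)]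
        refine hN.trans ?_
        exact_mod_cast h1.le
      rw [hat_zero_of, Complex.ofReal_zero, mul_zero]
      rw [abs_of_nonpos (by linarith)]
      linarith

theorem four_FG (a : ℕ → ℂ) {u h : ℝ} (hh : 0 < h) (N : ℕ)
    (hN : Real.exp (u + 1) ≤ N) (L : Finset ℕ) (c : ℕ → ℂ) (ξ : ℝ) :
    𝓕 (FG a u h N L c) ξ = PG a u (2 * π * ξ) * 𝓕 (boxC h) ξ * 𝓕 (bbC h L c) ξ := by
  have h1 : 𝓕 (ggC h L c) ξ =
      (∑ l ∈ L, c l * cexp (-(((2 * π * ξ * Real.log l : ℝ) : ℂ) * I))) * 𝓕 (boxC h) ξ ^ 2 := by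
    rw [← four_triC hh, ← four_sum (triC_integrable hh)]
    rfl
  have h2 : 𝓕 (bbC h L c) ξ =
      (∑ l ∈ L, c l * cexp (-(((2 * π * ξ * Real.log l : ℝ) : ℂ) * I))) * 𝓕 (boxC h) ξ := by
    rw [← four_sum (boxC_integrable h)]
    rfl
  have h3 : 𝓕 (FG a u h N L c) ξ = PG a u (2 * π * ξ) * 𝓕 (ggC h L c) ξ := by
    rw [PG_fin a u ξ N hN, ← four_sum (ggC_integrable hh L c)]
    rfl
  rw [h3, h1, h2]
  ring

theorem dispersionG (a : ℕ → ℂ) {u h : ℝ} (hh : 0 < h) (N : ℕ)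
    (hN : Real.exp (u + 1) ≤ N) (L : Finset ℕ) (c : ℕ → ℂ) {M : ℝ} (hM0 : 0 ≤ M)
    (hM : ∀ ξ : ℝ, ‖PG a u (2 * π * ξ)‖ * ‖𝓕 (boxC h) ξ‖ ≤ M) :
    ∫ x, ‖FG a u h N L c x‖ ^ 2 ≤ M ^ 2 * ∫ x, ‖bbC h L c x‖ ^ 2 := by
  have hFc := FG_continuous a u h N L c
  have hFs := FG_compact a hh u N L c
  have hbL := bbC_memLp h L c
  have hFL : MemLp (FG a u h N L c) 2 := hFc.memLp_of_hasCompactSupport hFs
  have hFint : Integrable (FG a u h N L c) := hFc.integrable_of_hasCompactSupport hFs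
  have p1 := Pool.Agent.Helper76.NormalHP.plancherel_lintegral _ hFint hFL
  have p2 := Pool.Agent.Helper76.NormalHP.plancherel_lintegral _ (bbC_integrable h L c) hbL
  have key : ∫⁻ x, ‖FG a u h N L c x‖ₑ ^ 2 ≤
      ENNReal.ofReal (M ^ 2) * ∫⁻ x, ‖bbC h L c x‖ₑ ^ 2 := by
    rw [← p1, ← p2, ← lintegral_const_mul' _ _ (by simp)]
    apply lintegral_mono
    intro ξ
    simp only
    rw [four_FG a hh N hN, enorm_mul, mul_pow, ENNReal.ofReal_pow hM0]
    gcongr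
    rw [← ofReal_norm, norm_mul]
    exact ENNReal.ofReal_le_ofReal (hM ξ)
  rw [lint_sq hFL, lint_sq hbL, ← ENNReal.ofReal_mul (by positivity)] at key
  refine (ENNReal.ofReal_le_ofReal_iff ?_).1 key
  apply mul_nonneg (by positivity)
  exact integral_nonneg fun x => by positivity

/-- **DSP** -/
theorem t_DSP : S_DSP := fun a u h N L c hh hN =>
  ⟨FG_continuous a u h N L c, FG_sq_integrable a hh u N L c,
    fun _ hM0 hM => dispersionG a hh N hN L c hM0 hM⟩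

end Pool.Agent.Q223.HC
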